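import Pool.Agent.H25.VIO.TSXc

/-! # VIO, module TSX: few triples with private primes -/

set_option autoImplicit false

namespace Pool.VIO

open Finset Pool.Agent.H98.ABCR Pool.SHA Pool.ABY

namespace Tsx25

theorem ab_bound {J Q q : ℕ} {δ ε d lam δp h0 n : ℝ} (hδ0 : 0 < δ) (hε0 : 0 < ε)
    (hd0 : 0 < d) (hdJ : 512 * J * d ≤ δ * ε) (hq0 : (0 : ℝ) < q) (hqQ : (q : ℝ) ≤ Q)
    (hlam0 : 0 < lam) (hlam : 512 * J * Q * lam ≤ δ * ε) (hδp0 : 0 < δp)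
    (hδp : 512 * J * Q * δp ≤ δ * ε) (hh0 : 0 < h0) (hn : n ≤ J) :
    n * (4 * (2 * d * h0 / q + lam * h0) + 2 * (δp * h0)) ≤ δ / (16 * q / ε) * h0 := by
  have h1 : n * (4 * (2 * d * h0 / q + lam * h0) + 2 * (δp * h0)) ≤
      J * (4 * (2 * d * h0 / q + lam * h0) + 2 * (δp * h0)) :=
    mul_le_mul_of_nonneg_right hn (by positivity)
  refine h1.trans ?_
  have e1 : δ / (16 * q / ε) * h0 = (δ * ε / 16) * h0 / q := by
    field_simp
  rw [e1, le_div_iff₀ hq0]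
  have e2 : (J : ℝ) * (4 * (2 * d * h0 / q + lam * h0) + 2 * (δp * h0)) * q =
      (8 * J * d + 4 * (J * q * lam) + 2 * (J * q * δp)) * h0 := by
    field_simp
    ring
  rw [e2]
  refine mul_le_mul_of_nonneg_right ?_ hh0.le
  have h4 : (J : ℝ) * q ≤ J * Q := mul_le_mul_of_nonneg_left hqQ (Nat.cast_nonneg _)
  have h2 : (J : ℝ) * q * lam ≤ J * Q * lam := mul_le_mul_of_nonneg_right h4 hlam0.le
  have h3 : (J : ℝ) * q * δp ≤ J * Q * δp := mul_le_mul_of_nonneg_right h4 hδp0.le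
  have h5 := mul_pos hδ0 hε0
  linarith

theorem mx_bound {ε κ y g : ℝ} {q x : ℕ} (hε0 : 0 < ε) (hε1 : ε ≤ 1) (hκ1 : 1 ≤ κ)
    (hq0 : (0 : ℝ) < q) (hy : y = κ / q) (hyg : y / 2 ≤ g) (hx : 1 ≤ x) :
    1 ≤ ⌈ε * x / (8 * κ)⌉₊ ∧ ⌈ε * x / (8 * κ)⌉₊ ≤ x ∧
      (x : ℝ) ≤ 16 * q / ε * g * (⌈ε * x / (8 * κ)⌉₊ : ℕ) := by
  have hx1 : (1 : ℝ) ≤ x := by exact_mod_cast hx
  have hx0 : (0 : ℝ) < x := by linarith
  have hκ0 : 0 < κ := by linarith
  refine ⟨Nat.ceil_pos.2 (by positivity), ?_, ?_⟩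
  · refine Nat.ceil_le.2 ?_
    rw [div_le_iff₀ (by positivity)]
    nlinarith
  · have h1 : ε * x / (8 * κ) ≤ (⌈ε * x / (8 * κ)⌉₊ : ℕ) := Nat.le_ceil _
    have h2 : (x : ℝ) ≤ (⌈ε * x / (8 * κ)⌉₊ : ℕ) * (8 * κ / ε) := by
      rw [div_le_iff₀ (by positivity)] at h1
      rw [mul_div_assoc', le_div_iff₀ hε0]
      linarith
    refine h2.trans ?_
    have h3 : 8 * κ / ε ≤ 16 * q / ε * g := by
      rw [div_mul_eq_mul_div]
      apply div_le_div_of_nonneg_right _ hε0.le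
      have h4 : κ = y * q := by
        rw [hy]
        field_simp
      nlinarith
    rw [mul_comm]
    exact mul_le_mul_of_nonneg_right h3 (Nat.cast_nonneg _)

theorem apx_of {R : ℝ} {g M N E : ℕ} {K T : Finset ℕ} {x m : ℕ → ℕ} {μ : ℕ × ℕ → ℕ → ℕ}
    {i j k : Fin 3} {F A B : Finset (ℕ × ℕ)} (hP : Priv K i F) (hF : ∀ v ∈ F, IsTri v)
    (hjk : j ≠ k) (hji : j ≠ i) (hki : k ≠ i) (hall : ∀ s, s ≠ i → s = j ∨ s = k)
    (hA : A ⊆ F) (hB : B ⊆ F) (hdis : Disjoint A B) (hAB : A.card = B.card) (hAne : A.Nonempty)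
    (hT : ∀ t ∈ T, t.Prime ∧ ¬ t ∣ g ∧ 1 ≤ x t ∧ 1 ≤ m t ∧ m t ≤ x t ∧
      (x t : ℝ) ≤ R * g * m t ∧ t ^ m t ∣ M ∧ ∀ v ∈ F, t ^ x t ∣ coord v i)
    (hN0 : 0 < N) (hE0 : 0 < E) (hcop : N.Coprime E)
    (heq : (∏ v ∈ A, coord v k) * (∏ v ∈ B, coord v j) *
        ((∏ v ∈ A, rt μ j v) * ∏ v ∈ B, rt μ k v) ^ g * E =
      (∏ v ∈ A, coord v j) * (∏ v ∈ B, coord v k) *
        ((∏ v ∈ A, rt μ k v) * ∏ v ∈ B, rt μ j v) ^ g * N)
    (hdvd : (M : ℤ) ∣ (∏ v ∈ A, (rt μ k v : ℤ)) * ∏ v ∈ B, (rt μ j v : ℤ) -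
      (∏ v ∈ A, (rt μ j v : ℤ)) * ∏ v ∈ B, (rt μ k v : ℤ)) :
    Apx R g T x m ((∏ v ∈ A, coord v k) * ∏ v ∈ B, coord v j)
      ((∏ v ∈ A, coord v j) * ∏ v ∈ B, coord v k) ((∏ v ∈ A, rt μ k v) * ∏ v ∈ B, rt μ j v)
      ((∏ v ∈ A, rt μ j v) * ∏ v ∈ B, rt μ k v) N E := by
  have hdi : ∀ t ∈ T, ∀ v ∈ F, t ∣ coord v i := fun t ht v hv => by
    obtain ⟨-, -, h1, -, -, -, -, h2⟩ := hT t ht
    exact (dvd_pow_self t (by omega)).trans (h2 v hv)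
  have hds : ∀ t ∈ T, ∀ v ∈ F, ∀ s, s ≠ i → ¬ t ∣ coord v s := fun t ht v hv s hs =>
    not_dvd (hF v hv) (Ne.symm hs) (hT t ht).1 (hdi t ht v hv)
  have hdr : ∀ t ∈ T, ∀ v ∈ F, ∀ s, s ≠ i → ¬ t ∣ rt μ s v := fun t ht v hv s hs h =>
    hds t ht v hv s hs (prime_dvd_rt (hT t ht).1 h)
  refine ⟨?_, ?_, ?_, ?_, hN0, hE0, hcop, heq, ?_, fun t ht => (hT t ht).1,
    fun t ht => (hT t ht).2.1, ?_, ?_, ?_, ?_⟩
  · exact Nat.mul_pos (prod_pos fun v hv => coord_pos (hF v (hA hv)) k)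
      (prod_pos fun v hv => coord_pos (hF v (hB hv)) j)
  · exact Nat.mul_pos (prod_pos fun v hv => coord_pos (hF v (hA hv)) j)
      (prod_pos fun v hv => coord_pos (hF v (hB hv)) k)
  · exact Nat.mul_pos (prod_pos fun v _ => rt_pos) (prod_pos fun v _ => rt_pos)
  · exact Nat.mul_pos (prod_pos fun v _ => rt_pos) (prod_pos fun v _ => rt_pos)
  · exact ne_of_priv hP hjk hji hki hall hA hB hdis hAne hF
  · intro t ht
    have hp := (hT t ht).1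
    exact ⟨not_dvd_prod hp (fun v hv => hds t ht v (hA hv) k hki)
        (fun v hv => hds t ht v (hB hv) j hji),
      not_dvd_prod hp (fun v hv => hds t ht v (hA hv) j hji)
        (fun v hv => hds t ht v (hB hv) k hki),
      not_dvd_prod hp (fun v hv => hdr t ht v (hA hv) k hki)
        (fun v hv => hdr t ht v (hB hv) j hji),
      not_dvd_prod hp (fun v hv => hdr t ht v (hA hv) j hji)
        (fun v hv => hdr t ht v (hB hv) k hki)⟩
  · intro t ht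
    obtain ⟨-, -, -, h1, h2, h3, -, -⟩ := hT t ht
    exact ⟨h1, h2, h3⟩
  · intro t ht
    obtain ⟨-, -, -, -, -, -, h1, -⟩ := hT t ht
    have h2 : ((t : ℤ) ^ m t) ∣ (M : ℤ) := by exact_mod_cast h1
    have h3 := h2.trans hdvd
    push_cast
    exact h3
  · intro t ht
    have h1 : ∀ v ∈ F, ((t : ℤ) ^ x t) ∣ (coord v i : ℤ) := fun v hv => by
      exact_mod_cast (hT t ht).2.2.2.2.2.2.2 v hv
    exact prod_cong hjk hji hki hAB (fun v hv => h1 v (hA hv)) (fun v hv => h1 v (hB hv))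

theorem core (hGCH : S_GCH) (hPGJ : S_PGJ) (hHGT : S_HGT)
    (c η ε δ d lam δp G0 X h0 κ θ : ℝ) (J Q q : ℕ) (K : Finset ℕ) (i : Fin 3)
    (F : Finset (ℕ × ℕ)) (hη0 : 0 < η) (hε0 : 0 < ε) (hε1 : ε ≤ 1) (hδ0 : 0 < δ)
    (hJ1 : 1 ≤ J) (hd0 : 0 < d) (hd1 : d ≤ 1 / 2) (hdJ : 512 * J * d ≤ δ * ε)
    (hq1 : 1 ≤ q) (hqQ : q ≤ Q) (hlam0 : 0 < lam) (hlam : 512 * J * Q * lam ≤ δ * ε)
    (hδp0 : 0 < δp) (hδp : 512 * J * Q * δp ≤ δ * ε) (hδpc : δp ≤ c / 2)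
    (hθ0 : 0 < θ) (hθ1 : θ ≤ 1 / 2) (hθ : θ * (2 * Q / η + 1) ≤ d) (hG0 : 1 ≤ G0)
    (hTSL : ∀ (g : ℕ) (T : Finset ℕ) (x m : ℕ → ℕ) (Y1 Y2 W1 W2 N D : ℕ),
      Apx (16 * q / ε) g T x m Y1 Y2 W1 W2 N D → G0 ≤ g → G0 * g ≤ h0 →
      Real.log N ≤ δ / (16 * q / ε) * h0 → Real.log D ≤ δ / (16 * q / ε) * h0 →
      Real.log W1 ≤ 6 * J * h0 / g → Real.log W2 ≤ 6 * J * h0 / g →
      ∑ t ∈ T, (x t : ℝ) * Real.log t < c / 6 * h0)
    (hX : 3 ≤ X) (hLG : G0 ≤ Real.log X) (hκ : κ * Real.log X = h0) (hκ1 : 20 * Q ≤ θ * κ)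
    (hκ2 : 2 * Q * G0 ≤ κ)
    (hch : ∀ n : ℕ, X ^ (ε / 2) < n → X ^ (1 + ε / 4) < (n.choose J : ℝ))
    (hF : ∀ v ∈ F, Fam X h0 c η lam K i v) (hP : Priv K i F)
    (hpat : ∀ v ∈ F, ∀ v' ∈ F, ∀ s, ∀ p ∈ K,
      |((coord v s).factorization p : ℝ) - (coord v' s).factorization p| * Real.log p *
        (K.card + 1) ≤ δp * h0)
    (hqF : ∀ v ∈ F, ∀ p ∈ bigp (X ^ η) K v,
      ∃ n : ℕ, |(q : ℝ) * (((nn v).factorization p : ℝ) / κ) - n| ≤ d) :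
    (F.card : ℝ) ≤ X ^ (ε / 2) := by
  classical
  by_contra hcon
  push Not at hcon
  have hX0 : 0 < X := by linarith
  have hFne : F.Nonempty := by
    rw [nonempty_iff_ne_empty]
    rintro rfl
    simp only [card_empty, Nat.cast_zero] at hcon
    exact absurd hcon (not_lt.2 (Real.rpow_nonneg hX0.le _))
  obtain ⟨v0, hv0⟩ := id hFne
  have hX1 : 1 < X := by linarith
  have hL0 : 0 < Real.log X := Real.log_pos hX1
  have hq1' : (1 : ℝ) ≤ q := by exact_mod_cast hq1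
  have hq0 : (0 : ℝ) < q := by linarith
  have hqQ' : (q : ℝ) ≤ Q := by exact_mod_cast hqQ
  have hQ0 : (0 : ℝ) < Q := by linarith
  have hJ1' : (1 : ℝ) ≤ J := by exact_mod_cast hJ1
  have hQ1 : (1 : ℝ) ≤ Q := by linarith
  have hG00 : 0 < G0 := by linarith
  have hκ0 : 0 < κ := lt_of_lt_of_le (by positivity) hκ2
  have hh0 : 0 < h0 := by rw [← hκ]; positivity
  obtain ⟨j, k, hjk, hji, hki, hall⟩ := others i
  have hKp : ∀ t ∈ K, t.Prime := fun t ht => (Nat.mem_primeFactors.1 ((hF v0 hv0).sub ht)).1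
  -- the weights
  have hsum := xm_sum (i := i) hFne hh0 hδp0.le hδpc (fun v hv => (hF v hv).wt) hpat
  set x : ℕ → ℕ := xm i F hFne with hxdef
  set T : Finset ℕ := K.filter (fun t => 1 ≤ x t) with hTdef
  have hTK : ∀ t ∈ T, t ∈ K ∧ 1 ≤ x t := fun t ht => mem_filter.1 ht
  have hsumT : c / 2 * h0 ≤ ∑ t ∈ T, (x t : ℝ) * Real.log t := by
    rw [hTdef, filter_sum]
    exact hsum
  -- the integer g
  set y : ℝ := κ / q with hy
  have hθy : 20 ≤ θ * y := by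
    rw [hy, mul_div_assoc', le_div_iff₀ hq0]
    linarith
  obtain ⟨g, hg1, hg2, hgs⟩ := hGCH T (fun t => (x t : ℝ) * Real.log t) y θ
    (fun t ht => ⟨hKp t (hTK t ht).1, mul_nonneg (Nat.cast_nonneg _)
      (Real.log_natCast_nonneg _)⟩) hθ0 (by linarith) hθy
  have hy0 : 0 < y := by positivity
  have hyG : 2 * G0 ≤ y := by
    rw [hy, le_div_iff₀ hq0]
    have h1 := mul_le_mul_of_nonneg_left hqQ' (show 0 ≤ 2 * G0 by linarith)
    linarith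
  have hy2 : y / 2 ≤ g := by
    have h1 : (1 / 2 : ℝ) * y ≤ (1 - θ) * y := mul_le_mul_of_nonneg_right (by linarith) hy0.le
    linarith
  have hgG : G0 ≤ g := by linarith
  have hg0' : (0 : ℝ) < g := by linarith
  have hg0 : 0 < g := by exact_mod_cast hg0'
  have D : Dat X η κ d θ y g h0 q := by
    refine ⟨hX1, hη0, hd0, hd1, hq1, hκ0, hκ, hy, hθ0.le, ?_, hg1, hg2⟩
    refine le_trans ?_ hθ
    refine mul_le_mul_of_nonneg_left ?_ hθ0.le
    have : 2 * (q : ℝ) / η ≤ 2 * Q / η := by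
      apply div_le_div_of_nonneg_right _ hη0.le
      linarith
    linarith
  set T' : Finset ℕ := T.filter (fun t => ¬ t ∣ g) with hT'def
  have hT'K : ∀ t ∈ T', t ∈ K ∧ 1 ≤ x t ∧ ¬ t ∣ g := fun t ht =>
    ⟨(hTK t (mem_filter.1 ht).1).1, (hTK t (mem_filter.1 ht).1).2, (mem_filter.1 ht).2⟩
  have hT'p : ∀ t ∈ T', t.Prime := fun t ht => hKp t (hT'K t ht).1
  have hT'i : ∀ t ∈ T', ∀ v ∈ F, t ^ x t ∣ coord v i := by
    intro t ht v hv
    rw [(hT'p t ht).pow_dvd_iff_le_factorization (coord_pos (hF v hv).tri i).ne']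
    exact xm_le hFne hv t
  have hT'i1 : ∀ t ∈ T', ∀ v ∈ F, t ∣ coord v i := fun t ht v hv =>
    (dvd_pow_self t (by have := (hT'K t ht).2.1; omega)).trans (hT'i t ht v hv)
  have hT's : ∀ t ∈ T', ∀ v ∈ F, ∀ s, s ≠ i → ¬ t ∣ coord v s := fun t ht v hv s hs =>
    not_dvd (hF v hv).tri (Ne.symm hs) (hT'p t ht) (hT'i1 t ht v hv)
  -- the roots
  set μ : ℕ × ℕ → ℕ → ℕ := mu (X ^ η) κ d q K with hμ
  set m : ℕ → ℕ := fun t => ⌈ε * x t / (8 * κ)⌉₊ with hm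
  set M : ℕ := ∏ t ∈ T', t ^ m t with hM
  have hM0 : 0 < M := prod_pos fun t ht => pow_pos (hT'p t ht).pos _
  have hM0' : (0 : ℝ) < M := by exact_mod_cast hM0
  have hlogM : Real.log M ≤ (1 + ε / 4) * Real.log X := by
    have hlog2 : ∑ t ∈ T', Real.log (t : ℝ) ≤ Real.log X :=
      sum_log_le (hF v0 hv0).rad fun t ht => (hF v0 hv0).sub (hT'K t ht).1
    exact log_M_le hε0 hκ0 hκ (fun t ht => ⟨hT'p t ht, xm_le hFne hv0 t⟩)
      ((log_coord_le (hF v0 hv0).tri i).trans (hF v0 hv0).up) hlog2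
  have hMX : (M : ℝ) ≤ X ^ (1 + ε / 4) := by
    rw [← Real.log_le_log_iff hM0' (Real.rpow_pos_of_pos hX0 _), Real.log_rpow hX0]
    exact hlogM
  have hMch : M < F.card.choose J := by
    have := lt_of_le_of_lt hMX (hch F.card hcon)
    exact_mod_cast this
  have hcopM : ∀ v ∈ F, ∀ s, s ≠ i → (rt μ s v).Coprime M := by
    intro v hv s hs
    refine Nat.Coprime.prod_right fun t ht => ?_
    refine Nat.Coprime.pow_right _ ?_
    rw [Nat.coprime_comm, (hT'p t ht).coprime_iff_not_dvd]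
    exact fun h => hT's t ht v hv s hs (prime_dvd_rt (hT'p t ht) h)
  obtain ⟨A, B, hA, hB, hdis, hAB, hAne, hAJ, hdvd⟩ := hPGJ F J M (fun v => rt μ k v)
    (fun v => rt μ j v) hM0 (fun v hv => ⟨hcopM v hv k hki, hcopM v hv j hji⟩) hMch
  have hABF : ∀ v ∈ A ∪ B, v ∈ F := fun v hv => by
    rcases mem_union.1 hv with h | h
    · exact hA h
    · exact hB h
  set a : ℝ := 2 * d * h0 / q + lam * h0 with ha
  set b : ℝ := δp * h0 with hb
  have hrst : ∀ v ∈ F, ∀ s, s ≠ i → rst g K μ s v ≤ a := fun v hv s hs =>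
    rst_le D (hF v hv).tri (hF v hv).rad (hF v hv).up hs (hF v hv).lg (hqF v hv)
  have ha0 : 0 ≤ a := by positivity
  have hb0 : 0 ≤ b := by positivity
  obtain ⟨N, E, hN0, hE0, hcop, heq, hN, hE⟩ := hHGT g K μ j k A B a b ha0 hb0 hjk hKp hdis hAB
    (fun v hv => ⟨(hF v (hABF v hv)).tri, fun p hp => mu_zero_K hp,
      hrst v (hABF v hv) j hji, hrst v (hABF v hv) k hki⟩)
    (fun v hv v' hv' s p hp => hpat v (hABF v hv) v' (hABF v' hv') s p hp)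
  -- the height of N / E
  have hAJ' : (A.card : ℝ) ≤ J := by exact_mod_cast hAJ
  have hab : (A.card : ℝ) * (4 * a + 2 * b) ≤ δ / (16 * q / ε) * h0 :=
    ab_bound hδ0 hε0 hd0 hdJ hq0 hqQ' hlam0 hlam hδp0 hδp hh0 hAJ'
  -- the heights of W1, W2
  have hrt : ∀ v ∈ F, ∀ s, Real.log (rt μ s v) ≤ 3 * h0 / g := fun v hv s =>
    rt_le D hg0 (hF v hv).tri (hF v hv).rad (hF v hv).up (hqF v hv)
  have hBJ : B.card ≤ J := hAB ▸ hAJ
  have hw0 : 0 ≤ 3 * h0 / g := by positivity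
  have hW1 : Real.log (((∏ v ∈ A, rt μ k v) * ∏ v ∈ B, rt μ j v : ℕ) : ℝ) ≤ 6 * J * h0 / g := by
    refine (log_prod_le (J := J) (fun v => rt_pos) (fun v => rt_pos) hw0 hAJ hBJ
      (fun v hv => hrt v (hA hv) k) (fun v hv => hrt v (hB hv) j)).trans (le_of_eq ?_)
    ring
  have hW2 : Real.log (((∏ v ∈ A, rt μ j v) * ∏ v ∈ B, rt μ k v : ℕ) : ℝ) ≤ 6 * J * h0 / g := by
    refine (log_prod_le (J := J) (fun v => rt_pos) (fun v => rt_pos) hw0 hAJ hBJ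
      (fun v hv => hrt v (hA hv) j) (fun v hv => hrt v (hB hv) k)).trans (le_of_eq ?_)
    ring
  -- the hypotheses of TSL
  have hκ1' : 1 ≤ κ := by
    have h1 : (1 : ℝ) * 1 ≤ Q * G0 := mul_le_mul hQ1 hG0 zero_le_one hQ0.le
    linarith
  have hTall : ∀ t ∈ T', t.Prime ∧ ¬ t ∣ g ∧ 1 ≤ x t ∧ 1 ≤ m t ∧ m t ≤ x t ∧
      (x t : ℝ) ≤ 16 * q / ε * g * m t ∧ t ^ m t ∣ M ∧ ∀ v ∈ F, t ^ x t ∣ coord v i := by
    intro t ht
    obtain ⟨h1, h2, h3⟩ := mx_bound hε0 hε1 hκ1' hq0 hy hy2 (hT'K t ht).2.1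
    exact ⟨hT'p t ht, (hT'K t ht).2.2, (hT'K t ht).2.1, h1, h2, h3,
      dvd_prod_of_mem (fun t => t ^ m t) ht, fun v hv => hT'i t ht v hv⟩
  have hapx := apx_of hP (fun v hv => (hF v hv).tri) hjk hji hki hall hA hB hdis hAB hAne hTall
    hN0 hE0 hcop heq hdvd
  have hGg : G0 * g ≤ h0 := by
    have h1 : (g : ℝ) ≤ κ := by
      refine hg2.trans ?_
      rw [hy]
      exact div_le_self hκ0.le hq1'
    rw [← hκ, mul_comm κ]
    exact mul_le_mul hLG h1 hg0'.le hL0.le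
  have hfin := hTSL g T' x m _ _ _ _ N E hapx hgG hGg (hN.trans hab) (hE.trans hab) hW1 hW2
  have h6 : ∑ t ∈ T, (x t : ℝ) * Real.log t ≤ 3 * ∑ t ∈ T', (x t : ℝ) * Real.log t := hgs
  linarith

theorem choose_big (ε : ℝ) (J : ℕ) (hε0 : 0 < ε) (hε1 : ε ≤ 1) (hJ : 8 ≤ J * ε) :
    ∃ X0 : ℝ, 3 ≤ X0 ∧ ∀ X ≥ X0, ∀ n : ℕ, X ^ (ε / 2) < n →
      X ^ (1 + ε / 4) < (n.choose J : ℝ) := by
  have h1 := (tendsto_rpow_atTop (show 0 < ε / 2 by positivity)).eventually_ge_atTop (2 * (J : ℝ))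
  obtain ⟨X1, hX1⟩ := Filter.eventually_atTop.1 h1
  set B : ℝ := 2 ^ J * (J.factorial : ℝ) with hB
  refine ⟨max (max 3 X1) (B + 1), (le_max_left _ _).trans (le_max_left _ _), fun X hX n hn => ?_⟩
  have hX3 : 3 ≤ X := ((le_max_left _ _).trans (le_max_left _ _)).trans hX
  have hX1' := hX1 X (((le_max_right _ _).trans (le_max_left _ _)).trans hX)
  have hXB : B + 1 ≤ X := (le_max_right _ _).trans hX
  have hX0 : 0 < X := by linarith
  have hJ0 : 1 ≤ J := by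
    rcases Nat.eq_zero_or_pos J with h | h
    · subst h
      simp at hJ
      linarith
    · exact h
  have hf0 : (0 : ℝ) < J.factorial := by exact_mod_cast J.factorial_pos
  have hB0 : 0 < B := by positivity
  have hnJ : 2 * (J : ℝ) < n := lt_of_le_of_lt hX1' hn
  have hnJ' : 2 * J < n := by exact_mod_cast hnJ
  have h2 := Nat.pow_le_choose (α := ℝ) J n
  have h3 : ((n + 1 - J : ℕ) : ℝ) ≥ n / 2 := by
    rw [Nat.cast_sub (by omega)]
    push_cast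
    linarith
  have h4 : X ^ (4 : ℝ) / B ≤ (n.choose J : ℝ) := by
    refine le_trans ?_ h2
    rw [hB, ← div_div]
    apply div_le_div_of_nonneg_right _ hf0.le
    have h5 : X ^ (4 : ℝ) ≤ (X ^ (ε / 2)) ^ J := by
      rw [← Real.rpow_natCast, ← Real.rpow_mul hX0.le]
      refine Real.rpow_le_rpow_of_exponent_le (by linarith) ?_
      linarith
    calc X ^ (4 : ℝ) / 2 ^ J ≤ (X ^ (ε / 2)) ^ J / 2 ^ J :=
          div_le_div_of_nonneg_right h5 (by positivity)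
      _ = (X ^ (ε / 2) / 2) ^ J := by rw [div_pow]
      _ ≤ ((n + 1 - J : ℕ) : ℝ) ^ J := by
          refine pow_le_pow_left₀ (by positivity) ?_ J
          linarith
  refine lt_of_lt_of_le ?_ h4
  rw [lt_div_iff₀ hB0]
  calc X ^ (1 + ε / 4) * B ≤ X ^ (2 : ℝ) * B := by
        refine mul_le_mul_of_nonneg_right ?_ hB0.le
        refine Real.rpow_le_rpow_of_exponent_le (by linarith) ?_
        linarith
    _ < X ^ (2 : ℝ) * X ^ (2 : ℝ) := by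
        refine mul_lt_mul_of_pos_left ?_ (Real.rpow_pos_of_pos hX0 _)
        have : X ≤ X ^ (2 : ℝ) := by
          calc X = X ^ (1 : ℝ) := (Real.rpow_one X).symm
            _ ≤ X ^ (2 : ℝ) := Real.rpow_le_rpow_of_exponent_le (by linarith) (by norm_num)
        linarith
    _ = X ^ (4 : ℝ) := by
        rw [← Real.rpow_add hX0]
        norm_num

theorem priv_mono {K : Finset ℕ} {i : Fin 3} {F G : Finset (ℕ × ℕ)} (hP : Priv K i F)
    (hG : G ⊆ F) : Priv K i G := by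
  intro v hv
  obtain ⟨s, hs, q, hq, hqK, hqs, hno⟩ := hP v (hG hv)
  exact ⟨s, hs, q, hq, hqK, hqs, fun v' hv' => hno v' (hG hv')⟩

end Tsx25

theorem tsx_thm (hTSL : S_TSL) (hGCH : S_GCH) (hDIR : S_DIR) (hPAT : S_PAT) (hPGJ : S_PGJ)
    (hHGT : S_HGT) : S_TSX := by
  classical
  intro c η ε0 hc hc1 hη hη1 hε00
  set ε : ℝ := min ε0 1 with hεdef
  have hε0 : 0 < ε := lt_min hε00 one_pos
  have hε1 : ε ≤ 1 := min_le_right _ _
  have hεε : ε ≤ ε0 := min_le_left _ _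
  set J : ℕ := ⌈8 / ε⌉₊ + 1 with hJdef
  have hJ1 : 1 ≤ J := by omega
  have hJ1' : (1 : ℝ) ≤ J := by exact_mod_cast hJ1
  have hJ0 : (0 : ℝ) < J := by linarith
  have hJε : 8 ≤ J * ε := by
    have h1 : 8 / ε ≤ J := by
      rw [hJdef]
      push_cast
      have := Nat.le_ceil (8 / ε)
      linarith
    rwa [div_le_iff₀ hε0] at h1
  obtain ⟨δ, hδ0, hδ⟩ := hTSL (c / 6) (6 * J) (by positivity) (by linarith)
  set d : ℝ := min (1 / 2) (δ * ε / (512 * J)) with hd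
  have hd0 : 0 < d := lt_min (by norm_num) (by positivity)
  have hd1 : d ≤ 1 / 2 := min_le_left _ _
  have hdJ : 512 * J * d ≤ δ * ε := by
    have h1 : d ≤ δ * ε / (512 * J) := min_le_right _ _
    rw [le_div_iff₀ (by positivity)] at h1
    linarith
  obtain ⟨Q, hQ1, hQ⟩ := hDIR ⌈1 / η⌉₊ d hd0 hd1
  have hQ1' : (1 : ℝ) ≤ Q := by exact_mod_cast hQ1
  have hQ0 : (0 : ℝ) < Q := by linarith
  have hG : ∀ q : ℕ, ∃ G0 : ℝ, 1 ≤ G0 ∧ (1 ≤ q → ∀ (g : ℕ) (T : Finset ℕ) (x m : ℕ → ℕ)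
      (Y1 Y2 W1 W2 N D : ℕ) (h0 : ℝ), Apx (16 * q / ε) g T x m Y1 Y2 W1 W2 N D → G0 ≤ g →
      G0 * g ≤ h0 → Real.log N ≤ δ / (16 * q / ε) * h0 → Real.log D ≤ δ / (16 * q / ε) * h0 →
      Real.log W1 ≤ 6 * J * h0 / g → Real.log W2 ≤ 6 * J * h0 / g →
      ∑ t ∈ T, (x t : ℝ) * Real.log t < c / 6 * h0) := by
    intro q
    by_cases hq : 1 ≤ q
    · have hR : 1 ≤ 16 * (q : ℝ) / ε := by
        rw [le_div_iff₀ hε0]
        have : (1 : ℝ) ≤ q := by exact_mod_cast hq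
        linarith
      obtain ⟨G0, h1, h2⟩ := hδ _ hR
      exact ⟨G0, h1, fun _ => h2⟩
    · exact ⟨1, le_rfl, fun h => absurd h hq⟩
  choose G hG1 hG2 using hG
  set Gm : ℝ := ∑ q ∈ range (Q + 1), G q with hGm
  have hGle : ∀ q, q ≤ Q → G q ≤ Gm := fun q hq =>
    single_le_sum (f := G) (fun i _ => by linarith [hG1 i]) (mem_range.2 (by omega))
  have hGm1 : 1 ≤ Gm := (hG1 0).trans (hGle 0 (by omega))
  set lam : ℝ := δ * ε / (512 * J * Q) with hlamdef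
  have hlam0 : 0 < lam := by positivity
  have hlam : 512 * J * Q * lam ≤ δ * ε := by
    rw [hlamdef]
    exact le_of_eq (by field_simp)
  set δp : ℝ := min (c / 2) (δ * ε / (512 * J * Q)) with hδpdef
  have hδp0 : 0 < δp := lt_min (by positivity) (by positivity)
  have hδp : 512 * J * Q * δp ≤ δ * ε := by
    have h1 : δp ≤ δ * ε / (512 * J * Q) := min_le_right _ _
    rw [le_div_iff₀ (by positivity)] at h1
    linarith
  have hδpc : δp ≤ c / 2 := min_le_left _ _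
  obtain ⟨C, hC1, hC⟩ := hPAT δp hδp0
  set Nm : ℝ := 2 * Q / η + 1 with hNm
  have hNm1 : 1 ≤ Nm := by
    have : 0 ≤ 2 * (Q : ℝ) / η := by positivity
    linarith
  set θ : ℝ := d / Nm with hθdef
  have hθ0 : 0 < θ := by positivity
  have hθ : θ * (2 * Q / η + 1) ≤ d := by
    rw [← hNm, hθdef]
    exact le_of_eq (by field_simp)
  have hθ1 : θ ≤ 1 / 2 := by
    refine le_trans ?_ hd1
    exact div_le_self hd0.le hNm1
  obtain ⟨X1, hX13, hX1⟩ := Tsx25.cbound Q C (ε / 2) hC1 (by positivity)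
  obtain ⟨X2, hX23, hX2⟩ := Tsx25.choose_big ε J hε0 hε1 hJε
  refine ⟨lam, max (20 * Q / θ) (2 * Q * Gm), max (max X1 X2) (Real.exp Gm), hlam0, ?_, ?_, ?_⟩
  · refine le_trans ?_ (le_max_right _ _)
    have h1 : (1 : ℝ) * 1 ≤ Q * Gm := mul_le_mul hQ1' hGm1 zero_le_one hQ0.le
    linarith
  · exact hX13.trans ((le_max_left _ _).trans (le_max_left _ _))
  intro X h0 K i F hX hκ0 hF hP
  have hXX1 : X1 ≤ X := ((le_max_left _ _).trans (le_max_left _ _)).trans hX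
  have hXX2 : X2 ≤ X := ((le_max_right _ _).trans (le_max_left _ _)).trans hX
  have hXe : Real.exp Gm ≤ X := (le_max_right _ _).trans hX
  have hX3 : 3 ≤ X := hX13.trans hXX1
  have hX0 : 0 < X := by linarith
  have hX1' : 1 < X := by linarith
  have hL0 : 0 < Real.log X := Real.log_pos hX1'
  have hLG : Gm ≤ Real.log X := (Real.le_log_iff_exp_le hX0).2 hXe
  have hεX : X ^ ε ≤ X ^ ε0 := Real.rpow_le_rpow_of_exponent_le hX1'.le hεε
  rcases F.eq_empty_or_nonempty with rfl | ⟨v0, hv0⟩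
  · simp only [card_empty, Nat.cast_zero]
    exact Real.rpow_nonneg hX0.le _
  set κ : ℝ := h0 / Real.log X with hκdef
  have hκL : κ * Real.log X = h0 := by
    rw [hκdef]
    field_simp
  have hκ' : max (20 * Q / θ) (2 * Q * Gm) ≤ κ := by
    rw [hκdef, le_div_iff₀ hL0]
    exact hκ0
  have hκ1 : 20 * Q ≤ θ * κ := by
    have h1 := (le_max_left (20 * (Q : ℝ) / θ) (2 * Q * Gm)).trans hκ'
    rw [div_le_iff₀ hθ0] at h1
    linarith
  have hκ2 : 2 * Q * Gm ≤ κ := (le_max_right _ _).trans hκ'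
  have hκp : 0 < κ := lt_of_lt_of_le (by positivity) hκ2
  have hh0 : 0 < h0 := by
    rw [← hκL]
    positivity
  have hKp : ∀ t ∈ K, t.Prime := fun t ht => (Nat.mem_primeFactors.1 ((hF v0 hv0).sub ht)).1
  obtain ⟨n, cl, hn, hcl, hpat⟩ := hC K h0 hKp hh0
  have hcov := Tsx25.cover F (range n ×ˢ Icc 1 Q)
    (fun x v => cl v = x.1 ∧ ∀ p ∈ Tsx25.bigp (X ^ η) K v,
      ∃ n : ℕ, |(x.2 : ℝ) * (((nn v).factorization p : ℝ) / κ) - n| ≤ d) (X ^ (ε / 2))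
    (by
      intro v hv
      obtain ⟨q, hq1, hqQ, hq⟩ := hQ (Tsx25.bigp (X ^ η) K v)
        (fun p => ((nn v).factorization p : ℝ) / κ) (Tsx25.bigp_card hX1' hη (hF v hv).rad)
        (fun p _ => by positivity)
      refine ⟨(cl v, q), ?_, rfl, hq⟩
      rw [mem_product, mem_range, mem_Icc]
      exact ⟨hcl v (hF v hv).tri (hF v hv).up, hq1, hqQ⟩)
    (by
      rintro ⟨a, q⟩ haq H hHF hH
      rw [mem_product, mem_range, mem_Icc] at haq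
      obtain ⟨-, hq1, hqQ⟩ := haq
      simp only at hq1 hqQ hH
      refine Tsx25.core hGCH hPGJ hHGT c η ε δ d lam δp Gm X h0 κ θ J Q q K i H hη hε0 hε1
        hδ0 hJ1 hd0 hd1 hdJ hq1 hqQ hlam0 hlam hδp0 hδp hδpc hθ0 hθ1 hθ hGm1 ?_ hX3 hLG hκL hκ1
        hκ2 (hX2 X hXX2) (fun v hv => hF v (hHF hv)) (Tsx25.priv_mono hP hHF) ?_
        (fun v hv => (hH v hv).2)
      · intro g T x m Y1 Y2 W1 W2 N D hA hg1 hg2 hN hD hW1 hW2
        refine hG2 q hq1 g T x m Y1 Y2 W1 W2 N D h0 hA ((hGle q hqQ).trans hg1) ?_ hN hD hW1 hW2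
        exact (mul_le_mul_of_nonneg_right (hGle q hqQ) (Nat.cast_nonneg _)).trans hg2
      · intro v hv v' hv' s p hp
        exact hpat v v' (hF v (hHF hv)).tri (hF v' (hHF hv')).tri (hF v (hHF hv)).up
          (hF v' (hHF hv')).up ((hH v hv).1.trans (hH v' hv').1.symm) s p hp)
  have hcard : ((range n ×ˢ Icc 1 Q).card : ℝ) ≤ X ^ (ε / 2) := by
    rw [card_product, card_range, Nat.card_Icc]
    push_cast
    have h1 := hX1 X hXX1 K.card (Tsx25.card_fact_le (hF v0 hv0).rad (hF v0 hv0).sub)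
    have h2 : (n : ℝ) * ((Q : ℝ)) ≤ C ^ (K.card + 1) * Q :=
      mul_le_mul_of_nonneg_right hn hQ0.le
    linarith
  refine le_trans ?_ hεX
  calc (F.card : ℝ) ≤ ((range n ×ˢ Icc 1 Q).card : ℝ) * X ^ (ε / 2) := hcov
    _ ≤ X ^ (ε / 2) * X ^ (ε / 2) :=
        mul_le_mul_of_nonneg_right hcard (Real.rpow_nonneg hX0.le _)
    _ = X ^ ε := by
        rw [← Real.rpow_add hX0]
        congr 1
        ring

end Pool.VIO
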