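import Pool.Agent.H25.VIO.TSXb

/-! # VIO, module TSX, part 3: the contradiction -/

set_option autoImplicit false

namespace Pool.VIO

open Finset Pool.Agent.H98.ABCR Pool.SHA Pool.ABY

namespace Tsx25

theorem prime_dvd_rt {μ : ℕ × ℕ → ℕ → ℕ} {s : Fin 3} {v : ℕ × ℕ} {t : ℕ} (ht : t.Prime)
    (h : t ∣ rt μ s v) : t ∣ coord v s := by
  unfold rt at h
  rw [Prime.dvd_finsetProd_iff ht.prime] at h
  obtain ⟨p, hp, h1⟩ := h
  have hp' := Nat.mem_primeFactors.1 hp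
  have h2 := ht.dvd_of_dvd_pow h1
  rw [Nat.prime_dvd_prime_iff_eq ht hp'.1] at h2
  rw [h2]
  exact hp'.2.1

theorem not_dvd_prod {A B : Finset (ℕ × ℕ)} {f f' : ℕ × ℕ → ℕ} {t : ℕ} (ht : t.Prime)
    (hA : ∀ v ∈ A, ¬ t ∣ f v) (hB : ∀ v ∈ B, ¬ t ∣ f' v) :
    ¬ t ∣ (∏ v ∈ A, f v) * ∏ v ∈ B, f' v := by
  intro h
  rcases ht.dvd_mul.1 h with h | h
  · obtain ⟨v, hv, h1⟩ := (Prime.dvd_finsetProd_iff ht.prime _).1 h
    exact hA v hv h1
  · obtain ⟨v, hv, h1⟩ := (Prime.dvd_finsetProd_iff ht.prime _).1 h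
    exact hB v hv h1

theorem ne_of_priv {K : Finset ℕ} {i j k : Fin 3} {F A B : Finset (ℕ × ℕ)} (hP : Priv K i F)
    (hjk : j ≠ k) (hji : j ≠ i) (hki : k ≠ i) (hall : ∀ s, s ≠ i → s = j ∨ s = k)
    (hA : A ⊆ F) (hB : B ⊆ F) (hd : Disjoint A B) (hne : A.Nonempty) (hF : ∀ v ∈ F, IsTri v) :
    (∏ v ∈ A, coord v k) * (∏ v ∈ B, coord v j) ≠
      (∏ v ∈ A, coord v j) * ∏ v ∈ B, coord v k := by
  obtain ⟨v, hv⟩ := hne
  obtain ⟨s, hs, q, hq, -, hqs, hno⟩ := hP v (hA hv)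
  have hAno : ∀ s', s' ≠ i → s' ≠ s → ∀ v' ∈ A, ¬ q ∣ coord v' s' := by
    intro s' hs' hss v' hv'
    by_cases h : v' = v
    · subst h
      exact not_dvd (hF _ (hA hv')) (Ne.symm hss) hq hqs
    · exact hno v' (hA hv') h s' hs'
  have hBno : ∀ s', s' ≠ i → ∀ v' ∈ B, ¬ q ∣ coord v' s' := by
    intro s' hs' v' hv'
    have h : v' ≠ v := by
      rintro rfl
      exact (disjoint_left.1 hd) hv hv'
    exact hno v' (hB hv') h s' hs'
  intro heq
  rcases hall s hs with rfl | rfl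
  · have h1 : q ∣ (∏ v ∈ A, coord v s) * ∏ v ∈ B, coord v k :=
      Dvd.dvd.mul_right (hqs.trans (dvd_prod_of_mem (fun v => coord v s) hv)) _
    rw [← heq] at h1
    exact not_dvd_prod hq (hAno k hki (Ne.symm hjk)) (hBno s hs) h1
  · have h1 : q ∣ (∏ v ∈ A, coord v s) * ∏ v ∈ B, coord v j :=
      Dvd.dvd.mul_right (hqs.trans (dvd_prod_of_mem (fun v => coord v s) hv)) _
    rw [heq] at h1
    exact not_dvd_prod hq (hAno j hji hjk) (hBno s hs) h1

/-- the minimal exponents -/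
noncomputable def xm (i : Fin 3) (F : Finset (ℕ × ℕ)) (hF : F.Nonempty) (t : ℕ) : ℕ :=
  F.inf' hF (fun v => (coord v i).factorization t)

theorem xm_le {i : Fin 3} {F : Finset (ℕ × ℕ)} (hF : F.Nonempty) {v : ℕ × ℕ} (hv : v ∈ F) (t : ℕ) :
    xm i F hF t ≤ (coord v i).factorization t :=
  inf'_le (fun v => (coord v i).factorization t) hv

theorem xm_ex (i : Fin 3) {F : Finset (ℕ × ℕ)} (hF : F.Nonempty) (t : ℕ) :
    ∃ v ∈ F, xm i F hF t = (coord v i).factorization t :=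
  exists_mem_eq_inf' hF (fun v => (coord v i).factorization t)

theorem xm_sum {i : Fin 3} {F : Finset (ℕ × ℕ)} (hF : F.Nonempty) {K : Finset ℕ} {c δp h0 : ℝ}
    (hh0 : 0 < h0) (hδp0 : 0 ≤ δp) (hδpc : δp ≤ c / 2)
    (hwt : ∀ v ∈ F, c * h0 ≤ kl K (coord v i))
    (hpat : ∀ v ∈ F, ∀ v' ∈ F, ∀ s, ∀ p ∈ K,
      |((coord v s).factorization p : ℝ) - (coord v' s).factorization p| * Real.log p *
        (K.card + 1) ≤ δp * h0) :
    c / 2 * h0 ≤ ∑ t ∈ K, (xm i F hF t : ℝ) * Real.log t := by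
  obtain ⟨v0, hv0⟩ := hF
  have hF : F.Nonempty := ⟨v0, hv0⟩
  have hK0 : (0 : ℝ) < (K.card : ℝ) + 1 := by positivity
  have h1 : ∀ t ∈ K, ((coord v0 i).factorization t : ℝ) * Real.log t ≤
      (xm i F hF t : ℝ) * Real.log t + δp * h0 / (K.card + 1) := by
    intro t ht
    obtain ⟨v, hv, hx⟩ := xm_ex i hF t
    have h2 := hpat v0 hv0 v hv i t ht
    have hlog : 0 ≤ Real.log (t : ℝ) := Real.log_natCast_nonneg _
    rw [hx]
    have h3 : |((coord v0 i).factorization t : ℝ) - (coord v i).factorization t| * Real.log t ≤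
        δp * h0 / (K.card + 1) := by
      rw [le_div_iff₀ hK0]
      exact h2
    have h4 := mul_le_mul_of_nonneg_right
      (le_abs_self (((coord v0 i).factorization t : ℝ) - (coord v i).factorization t)) hlog
    nlinarith
  have h2 := sum_le_sum h1
  rw [sum_add_distrib, sum_const, nsmul_eq_mul] at h2
  have h3 := hwt v0 hv0
  unfold kl at h3
  have h4 : (K.card : ℝ) * (δp * h0 / (K.card + 1)) ≤ δp * h0 := by
    rw [mul_div_assoc', div_le_iff₀ hK0]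
    have : 0 ≤ δp * h0 := by positivity
    nlinarith
  nlinarith

theorem filter_sum {K : Finset ℕ} (x : ℕ → ℕ) :
    ∑ t ∈ K.filter (fun t => 1 ≤ x t), (x t : ℝ) * Real.log t =
      ∑ t ∈ K, (x t : ℝ) * Real.log t := by
  rw [sum_filter]
  refine sum_congr rfl fun t _ => ?_
  split_ifs with h
  · rfl
  · have : x t = 0 := by omega
    rw [this]
    simp

theorem log_M_le {T : Finset ℕ} {x : ℕ → ℕ} {ε κ L h0 : ℝ} {n : ℕ} (hε : 0 < ε) (hκ : 0 < κ)
    (hκL : κ * L = h0) (hT : ∀ t ∈ T, t.Prime ∧ x t ≤ n.factorization t)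
    (hn : Real.log n ≤ 2 * h0) (hlog : ∑ t ∈ T, Real.log (t : ℝ) ≤ L) :
    Real.log ((∏ t ∈ T, t ^ ⌈ε * x t / (8 * κ)⌉₊ : ℕ) : ℝ) ≤ (1 + ε / 4) * L := by
  push_cast
  rw [Real.log_prod]
  · have h1 : ∀ t ∈ T, Real.log ((t : ℝ) ^ ⌈ε * x t / (8 * κ)⌉₊) ≤
        ε / (8 * κ) * ((n.factorization t : ℝ) * Real.log t) + Real.log t := by
      intro t ht
      have hl : 0 ≤ Real.log (t : ℝ) := Real.log_natCast_nonneg _
      rw [Real.log_pow]
      have h2 : (⌈ε * x t / (8 * κ)⌉₊ : ℝ) ≤ ε * x t / (8 * κ) + 1 :=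
        (Nat.ceil_lt_add_one (by positivity)).le
      have h3 : (x t : ℝ) ≤ n.factorization t := by exact_mod_cast (hT t ht).2
      have h4 : ε * x t / (8 * κ) ≤ ε / (8 * κ) * n.factorization t := by
        rw [mul_div_right_comm]
        exact mul_le_mul_of_nonneg_left h3 (by positivity)
      calc (⌈ε * x t / (8 * κ)⌉₊ : ℝ) * Real.log t
          ≤ (ε / (8 * κ) * n.factorization t + 1) * Real.log t :=
            mul_le_mul_of_nonneg_right (by linarith) hl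
        _ = _ := by ring
    refine (sum_le_sum h1).trans ?_
    rw [sum_add_distrib, ← mul_sum]
    have h5 : ε / (8 * κ) * ∑ t ∈ T, (n.factorization t : ℝ) * Real.log t ≤ ε / 4 * L := by
      refine (mul_le_mul_of_nonneg_left ((sum_fact_le T).trans hn) (by positivity)).trans
        (le_of_eq ?_)
      rw [← hκL]
      field_simp
      ring
    linarith
  · intro t ht
    have := (hT t ht).1.pos
    positivity

theorem log_prod_le {A B : Finset (ℕ × ℕ)} {f f' : ℕ × ℕ → ℕ} {J : ℕ} {a : ℝ}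
    (hf : ∀ v, 0 < f v) (hf' : ∀ v, 0 < f' v) (ha : 0 ≤ a) (hAJ : A.card ≤ J) (hBJ : B.card ≤ J)
    (hA : ∀ v ∈ A, Real.log (f v) ≤ a) (hB : ∀ v ∈ B, Real.log (f' v) ≤ a) :
    Real.log (((∏ v ∈ A, f v) * ∏ v ∈ B, f' v : ℕ) : ℝ) ≤ 2 * J * a := by
  have h1 : ∀ v ∈ A, ((f v : ℕ) : ℝ) ≠ 0 := fun v _ => by
    have := hf v
    positivity
  have h2 : ∀ v ∈ B, ((f' v : ℕ) : ℝ) ≠ 0 := fun v _ => by
    have := hf' v
    positivity
  push_cast
  rw [Real.log_mul (prod_ne_zero_iff.2 h1) (prod_ne_zero_iff.2 h2), Real.log_prod h1,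
    Real.log_prod h2]
  have h3 := sum_le_card_nsmul A _ a hA
  have h4 := sum_le_card_nsmul B _ a hB
  rw [nsmul_eq_mul] at h3 h4
  have h5 : (A.card : ℝ) * a ≤ J * a :=
    mul_le_mul_of_nonneg_right (by exact_mod_cast hAJ) ha
  have h6 : (B.card : ℝ) * a ≤ J * a :=
    mul_le_mul_of_nonneg_right (by exact_mod_cast hBJ) ha
  linarith

end Tsx25

end Pool.VIO
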