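import Pool.Agent.H46.VIO.Stmts

/-! # VIO, module TSX, part 1: coordinates, signs, sums of logarithms -/

set_option autoImplicit false

namespace Pool.VIO

open Finset Pool.Agent.H98.ABCR Pool.SHA Pool.ABY

namespace Tsx25

theorem nn_coord (v : ℕ × ℕ) (s : Fin 3) : coord v s ∣ nn v := by
  unfold nn
  fin_cases s
  · exact Dvd.intro _ (mul_assoc _ _ _).symm
  · exact Dvd.dvd.mul_right (Dvd.intro_left _ rfl) _
  · exact Dvd.intro_left _ rfl

theorem coord_pos {v : ℕ × ℕ} (hv : IsTri v) (s : Fin 3) : 0 < coord v s := by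
  obtain ⟨ha, hb, -⟩ := hv
  fin_cases s
  · exact ha
  · exact hb
  · exact Nat.add_pos_left ha _

theorem nn_pos {v : ℕ × ℕ} (hv : IsTri v) : 0 < nn v := by
  obtain ⟨ha, hb, -⟩ := hv
  unfold nn
  positivity

theorem coprime {v : ℕ × ℕ} (hv : IsTri v) {s t : Fin 3} (h : s ≠ t) :
    (coord v s).Coprime (coord v t) := by
  obtain ⟨-, -, hc⟩ := hv
  have h01 : v.1.Coprime v.2 := hc
  have h02 : v.1.Coprime (v.1 + v.2) := by simpa using hc
  have h12 : v.2.Coprime (v.1 + v.2) := by simpa using hc.symm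
  fin_cases s <;> fin_cases t
  · exact absurd rfl h
  · exact h01
  · exact h02
  · exact h01.symm
  · exact absurd rfl h
  · exact h12
  · exact h02.symm
  · exact h12.symm
  · exact absurd rfl h

theorem not_dvd {v : ℕ × ℕ} (hv : IsTri v) {s t : Fin 3} (h : s ≠ t) {p : ℕ} (hp : p.Prime)
    (hd : p ∣ coord v s) : ¬ p ∣ coord v t := by
  intro h2
  have := Nat.Coprime.eq_one_of_dvd ((coprime hv h).coprime_dvd_left hd) h2
  exact hp.one_lt.ne' this

theorem log_coord_le {v : ℕ × ℕ} (hv : IsTri v) (s : Fin 3) :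
    Real.log (coord v s) ≤ hh v := by
  unfold hh
  refine Real.log_le_log (by exact_mod_cast coord_pos hv s) ?_
  have : coord v s ≤ v.1 + v.2 := by
    fin_cases s
    · exact Nat.le_add_right _ _
    · exact Nat.le_add_left _ _
    · exact le_rfl
  exact_mod_cast this

theorem fact_nn {v : ℕ × ℕ} (hv : IsTri v) {s : Fin 3} {p : ℕ}
    (hp : p ∈ (coord v s).primeFactors) :
    (nn v).factorization p = (coord v s).factorization p := by
  have hpp := Nat.mem_primeFactors.1 hp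
  have h : ∀ t, s ≠ t → (coord v t).factorization p = 0 := fun t ht =>
    Nat.factorization_eq_zero_of_not_dvd (not_dvd hv ht hpp.1 hpp.2.1)
  have e : nn v = coord v 0 * coord v 1 * coord v 2 := rfl
  have h0 := (coord_pos hv 0).ne'
  have h1 := (coord_pos hv 1).ne'
  have h2 := (coord_pos hv 2).ne'
  rw [e, Nat.factorization_mul (mul_ne_zero h0 h1) h2, Nat.factorization_mul h0 h1]
  simp only [Finsupp.coe_add, Pi.add_apply]
  fin_cases s
  · have a1 := h 1 (by decide)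
    have a2 := h 2 (by decide)
    simp only [a1, a2, add_zero]
    rfl
  · have a1 := h 0 (by decide)
    have a2 := h 2 (by decide)
    simp only [a1, a2, add_zero, zero_add]
    rfl
  · have a1 := h 0 (by decide)
    have a2 := h 1 (by decide)
    simp only [a1, a2, zero_add]
    rfl

theorem sum_fact_le {n : ℕ} (S : Finset ℕ) :
    ∑ t ∈ S, (n.factorization t : ℝ) * Real.log t ≤ Real.log n := by
  classical
  rw [Real.log_nat_eq_sum_factorization]
  unfold Finsupp.sum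
  rw [Nat.support_factorization]
  have h1 : ∑ t ∈ S, (n.factorization t : ℝ) * Real.log t =
      ∑ t ∈ S.filter (fun t => t ∈ n.primeFactors), (n.factorization t : ℝ) * Real.log t := by
    rw [Finset.sum_filter]
    refine Finset.sum_congr rfl fun t _ => ?_
    split_ifs with h
    · rfl
    · rw [← Nat.support_factorization, Finsupp.notMem_support_iff] at h
      rw [h]
      simp
  rw [h1]
  refine Finset.sum_le_sum_of_subset_of_nonneg ?_ ?_
  · intro t ht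
    exact (mem_filter.1 ht).2
  · intro t _ _
    exact mul_nonneg (Nat.cast_nonneg _) (Real.log_natCast_nonneg _)

theorem sum_log_le {v : ℕ × ℕ} {X : ℝ} (hR : (RR v : ℝ) ≤ X) {S : Finset ℕ}
    (hS : S ⊆ (nn v).primeFactors) : ∑ p ∈ S, Real.log p ≤ Real.log X := by
  have h0 : ∀ p ∈ S, ((p : ℕ) : ℝ) ≠ 0 := fun p hp => by
    have := (Nat.mem_primeFactors.1 (hS hp)).1.pos
    positivity
  rw [← Real.log_prod h0]
  have h2 : ∏ q ∈ S, q ≤ RR v := by
    unfold RR rad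
    exact Finset.prod_le_prod_of_subset_of_one_le' hS fun q hq _ =>
      (Nat.mem_primeFactors.1 hq).1.one_lt.le
  have h3 : (∏ q ∈ S, (q : ℝ)) ≤ X := by
    refine le_trans ?_ hR
    have h4 : ((∏ q ∈ S, q : ℕ) : ℝ) ≤ (RR v : ℝ) := by exact_mod_cast h2
    rwa [Nat.cast_prod] at h4
  refine Real.log_le_log ?_ h3
  exact Finset.prod_pos fun p hp => by
    have := (Nat.mem_primeFactors.1 (hS hp)).1.pos
    positivity

theorem card_fact (S : Finset ℕ) (hS : ∀ q ∈ S, 1 ≤ q) :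
    S.card.factorial ≤ ∏ q ∈ S, q := by
  induction S using Finset.induction_on_max with
  | empty => simp
  | insert a s hs ih =>
    have ha : a ∉ s := fun h => lt_irrefl _ (hs a h)
    rw [Finset.card_insert_of_notMem ha, Finset.prod_insert ha, Nat.factorial_succ]
    refine Nat.mul_le_mul ?_ (ih fun q hq => hS q (mem_insert_of_mem hq))
    have h1 : s ⊆ Icc 1 (a - 1) := by
      intro x hx
      have h2 := hs x hx
      have h3 := hS x (mem_insert_of_mem hx)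
      rw [mem_Icc]
      omega
    have h4 := card_le_card h1
    rw [Nat.card_Icc] at h4
    have h5 := hS a (mem_insert_self _ _)
    omega

theorem card_fact_le {v : ℕ × ℕ} {X : ℝ} (hR : (RR v : ℝ) ≤ X) {S : Finset ℕ}
    (hS : S ⊆ (nn v).primeFactors) : (S.card.factorial : ℝ) ≤ X := by
  have h1 := card_fact S fun q hq => (Nat.mem_primeFactors.1 (hS hq)).1.one_lt.le
  have h2 : ∏ q ∈ S, q ≤ RR v := by
    unfold RR rad
    exact Finset.prod_le_prod_of_subset_of_one_le' hS fun q hq _ =>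
      (Nat.mem_primeFactors.1 hq).1.one_lt.le
  exact le_trans (by exact_mod_cast h1.trans h2) hR

/-- `B C ^ (w + 1) ≤ X ^ ε` if `w ! ≤ X` and `X` is large -/
theorem cbound (B C ε : ℝ) (hC : 1 ≤ C) (hε : 0 < ε) : ∃ X0 : ℝ, 3 ≤ X0 ∧
    ∀ X ≥ X0, ∀ w : ℕ, (w.factorial : ℝ) ≤ X → B * C ^ (w + 1) ≤ X ^ ε := by
  set D : ℝ := C ^ (2 / ε) with hD
  have hC0 : 0 < C := by linarith
  have hD0 : 0 < D := Real.rpow_pos_of_pos hC0 _
  set E : ℝ := (max B 0) * (C * (Real.exp D) ^ (ε / 2)) with hE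
  have h1 : ∃ X1 : ℝ, ∀ X ≥ X1, E ≤ X ^ (ε / 2) := by
    have := (tendsto_rpow_atTop (show 0 < ε / 2 by positivity)).eventually_ge_atTop E
    exact Filter.eventually_atTop.1 this
  obtain ⟨X1, hX1⟩ := h1
  refine ⟨max 3 X1, le_max_left _ _, fun X hX w hw => ?_⟩
  have hX3 : 3 ≤ X := (le_max_left _ _).trans hX
  have hX0 : 0 < X := by linarith
  have h2 := hX1 X ((le_max_right _ _).trans hX)
  have h3 := Real.pow_div_factorial_le_exp D hD0.le w
  have hw0 : (0 : ℝ) < w.factorial := by exact_mod_cast w.factorial_pos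
  rw [div_le_iff₀ hw0] at h3
  have h4 : D ^ w ≤ Real.exp D * X :=
    h3.trans (mul_le_mul_of_nonneg_left hw (Real.exp_pos _).le)
  have h5 : C ^ w = (D ^ w) ^ (ε / 2) := by
    rw [hD, ← Real.rpow_natCast (C ^ (2 / ε)) w, ← Real.rpow_mul hC0.le, ← Real.rpow_mul hC0.le,
      ← Real.rpow_natCast C w]
    congr 1
    field_simp
  have h6 : C ^ w ≤ (Real.exp D) ^ (ε / 2) * X ^ (ε / 2) := by
    rw [h5, ← Real.mul_rpow (Real.exp_pos _).le hX0.le]
    exact Real.rpow_le_rpow (by positivity) h4 (by positivity)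
  have hp : 0 < X ^ (ε / 2) := Real.rpow_pos_of_pos hX0 _
  calc B * C ^ (w + 1) ≤ max B 0 * C ^ (w + 1) :=
        mul_le_mul_of_nonneg_right (le_max_left _ _) (by positivity)
    _ = max B 0 * (C * C ^ w) := by ring
    _ ≤ max B 0 * (C * ((Real.exp D) ^ (ε / 2) * X ^ (ε / 2))) := by
        refine mul_le_mul_of_nonneg_left ?_ (le_max_right _ _)
        exact mul_le_mul_of_nonneg_left h6 hC0.le
    _ = E * X ^ (ε / 2) := by rw [hE]; ring
    _ ≤ X ^ (ε / 2) * X ^ (ε / 2) := mul_le_mul_of_nonneg_right h2 hp.le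
    _ = X ^ ε := by
        rw [← Real.rpow_add hX0]
        congr 1
        ring

theorem cover {α β : Type*} (F : Finset α) (S : Finset β)
    (P : β → α → Prop) (N : ℝ) (h : ∀ v ∈ F, ∃ c ∈ S, P c v)
    (hN : ∀ c ∈ S, ∀ G : Finset α, G ⊆ F → (∀ v ∈ G, P c v) → (G.card : ℝ) ≤ N) :
    (F.card : ℝ) ≤ S.card * N := by
  classical
  have h1 : F ⊆ S.biUnion fun c => F.filter (P c) := by
    intro v hv
    obtain ⟨c, hc, hp⟩ := h v hv
    exact mem_biUnion.2 ⟨c, hc, mem_filter.2 ⟨hv, hp⟩⟩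
  have h2 : (F.card : ℝ) ≤ ∑ c ∈ S, ((F.filter (P c)).card : ℝ) := by
    exact_mod_cast (card_le_card h1).trans card_biUnion_le
  refine h2.trans ?_
  rw [← nsmul_eq_mul]
  exact sum_le_card_nsmul _ _ _ fun c hc =>
    hN c hc _ (filter_subset _ _) fun v hv => (mem_filter.1 hv).2

theorem others (i : Fin 3) : ∃ j k : Fin 3, j ≠ k ∧ j ≠ i ∧ k ≠ i ∧
    ∀ s, s ≠ i → s = j ∨ s = k := by
  fin_cases i
  · exact ⟨1, 2, by decide, by decide, by decide, by decide⟩
  · exact ⟨0, 2, by decide, by decide, by decide, by decide⟩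
  · exact ⟨0, 1, by decide, by decide, by decide, by decide⟩

/-- the sign between the two coordinates other than `i` -/
def sg (i : Fin 3) : ℤ := if i = 2 then -1 else 1

theorem dvd_sg (v : ℕ × ℕ) {i j k : Fin 3} (hjk : j ≠ k) (hji : j ≠ i) (hki : k ≠ i) :
    (coord v i : ℤ) ∣ (coord v k : ℤ) - sg i * coord v j := by
  have c0 : coord v 0 = v.1 := rfl
  have c1 : coord v 1 = v.2 := rfl
  have c2 : coord v 2 = v.1 + v.2 := rfl
  have s0 : sg 0 = 1 := by decide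
  have s1 : sg 1 = 1 := by decide
  have s2 : sg 2 = -1 := by decide
  have key : ∀ i j k : Fin 3, j ≠ k → j ≠ i → k ≠ i → (i = 0 ∧ j = 1 ∧ k = 2) ∨
      (i = 0 ∧ j = 2 ∧ k = 1) ∨ (i = 1 ∧ j = 0 ∧ k = 2) ∨ (i = 1 ∧ j = 2 ∧ k = 0) ∨
      (i = 2 ∧ j = 0 ∧ k = 1) ∨ (i = 2 ∧ j = 1 ∧ k = 0) := by decide
  rcases key i j k hjk hji hki with ⟨rfl, rfl, rfl⟩ | ⟨rfl, rfl, rfl⟩ | ⟨rfl, rfl, rfl⟩ |
    ⟨rfl, rfl, rfl⟩ | ⟨rfl, rfl, rfl⟩ | ⟨rfl, rfl, rfl⟩
  · rw [c0, c1, c2, s0]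
    exact ⟨1, by push_cast; ring⟩
  · rw [c0, c1, c2, s0]
    exact ⟨-1, by push_cast; ring⟩
  · rw [c0, c1, c2, s1]
    exact ⟨1, by push_cast; ring⟩
  · rw [c0, c1, c2, s1]
    exact ⟨-1, by push_cast; ring⟩
  · rw [c0, c1, c2, s2]
    exact ⟨1, by push_cast; ring⟩
  · rw [c0, c1, c2, s2]
    exact ⟨1, by push_cast; ring⟩

theorem prod_cong {P : ℤ} {i j k : Fin 3} (hjk : j ≠ k) (hji : j ≠ i) (hki : k ≠ i)
    {A B : Finset (ℕ × ℕ)} (hAB : A.card = B.card)
    (hA : ∀ v ∈ A, P ∣ (coord v i : ℤ)) (hB : ∀ v ∈ B, P ∣ (coord v i : ℤ)) :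
    P ∣ (((∏ v ∈ A, coord v k) * ∏ v ∈ B, coord v j : ℕ) : ℤ) -
      (((∏ v ∈ A, coord v j) * ∏ v ∈ B, coord v k : ℕ) : ℤ) := by
  have key : ∀ S : Finset (ℕ × ℕ), (∀ v ∈ S, P ∣ (coord v i : ℤ)) →
      (∏ v ∈ S, (coord v k : ℤ)) ≡ sg i ^ S.card * ∏ v ∈ S, (coord v j : ℤ) [ZMOD P] := by
    intro S hS
    have h1 : ∏ v ∈ S, (coord v k : ℤ) ≡ ∏ v ∈ S, (sg i * (coord v j : ℤ)) [ZMOD P] := by
      refine Int.ModEq.prod fun v hv => ?_
      exact (Int.modEq_iff_dvd.2 ((hS v hv).trans (dvd_sg v hjk hji hki))).symm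
    rwa [Finset.prod_mul_distrib, Finset.prod_const] at h1
  have h1 := key A hA
  have h2 := key B hB
  rw [← Int.modEq_iff_dvd]
  push_cast
  have h3 : (∏ v ∈ A, (coord v j : ℤ)) * ∏ v ∈ B, (coord v k : ℤ) ≡
      (∏ v ∈ A, (coord v j : ℤ)) * (sg i ^ B.card * ∏ v ∈ B, (coord v j : ℤ)) [ZMOD P] :=
    h2.mul_left _
  have h4 : (∏ v ∈ A, (coord v k : ℤ)) * ∏ v ∈ B, (coord v j : ℤ) ≡
      (sg i ^ A.card * ∏ v ∈ A, (coord v j : ℤ)) * ∏ v ∈ B, (coord v j : ℤ) [ZMOD P] :=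
    h1.mul_right _
  refine h3.trans (Int.ModEq.trans ?_ h4.symm)
  rw [hAB]
  have h5 : (∏ v ∈ A, (coord v j : ℤ)) * (sg i ^ B.card * ∏ v ∈ B, (coord v j : ℤ)) =
      (sg i ^ B.card * ∏ v ∈ A, (coord v j : ℤ)) * ∏ v ∈ B, (coord v j : ℤ) := by ring
  rw [h5]

end Tsx25

end Pool.VIO
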