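import Pool.Agent.H25.VIO.TSXa

/-! # VIO, module TSX, part 2: the approximate roots -/

set_option autoImplicit false

namespace Pool.VIO

open Finset Pool.Agent.H98.ABCR Pool.SHA Pool.ABY

namespace Tsx25

open Classical in
/-- the unknown primes `> Z` -/
noncomputable def bigp (Z : ℝ) (K : Finset ℕ) (v : ℕ × ℕ) : Finset ℕ :=
  (nn v).primeFactors.filter (fun p => p ∉ K ∧ Z < (p : ℝ))

open Classical in
/-- the integer near `q e_p / κ` -/
noncomputable def mu (Z κ d : ℝ) (q : ℕ) (K : Finset ℕ) (v : ℕ × ℕ) (p : ℕ) : ℕ :=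
  if h : p ∈ bigp Z K v ∧ ∃ n : ℕ, |(q : ℝ) * (((nn v).factorization p : ℝ) / κ) - n| ≤ d then
    h.2.choose else 0

theorem mu_spec {Z κ d : ℝ} {q : ℕ} {K : Finset ℕ} {v : ℕ × ℕ} {p : ℕ} (hp : p ∈ bigp Z K v)
    (h : ∃ n : ℕ, |(q : ℝ) * (((nn v).factorization p : ℝ) / κ) - n| ≤ d) :
    |(q : ℝ) * (((nn v).factorization p : ℝ) / κ) - mu Z κ d q K v p| ≤ d := by
  classical
  unfold mu
  rw [dif_pos ⟨hp, h⟩]
  exact (And.intro hp h).2.choose_spec

theorem mu_zero {Z κ d : ℝ} {q : ℕ} {K : Finset ℕ} {v : ℕ × ℕ} {p : ℕ} (hp : p ∉ bigp Z K v) :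
    mu Z κ d q K v p = 0 := by
  classical
  unfold mu
  rw [dif_neg]
  exact fun h => hp h.1

theorem mu_zero_K {Z κ d : ℝ} {q : ℕ} {K : Finset ℕ} {v : ℕ × ℕ} {p : ℕ} (hp : p ∈ K) :
    mu Z κ d q K v p = 0 := by
  classical
  refine mu_zero fun h => ?_
  exact (mem_filter.1 h).2.1 hp

theorem bigp_sub (Z : ℝ) (K : Finset ℕ) (v : ℕ × ℕ) : bigp Z K v ⊆ (nn v).primeFactors := by
  classical
  exact filter_subset _ _

/-- number of big primes -/
theorem bigp_card {X η : ℝ} {K : Finset ℕ} {v : ℕ × ℕ} (hX : 1 < X) (hη : 0 < η)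
    (hR : (RR v : ℝ) ≤ X) : (bigp (X ^ η) K v).card ≤ ⌈1 / η⌉₊ := by
  classical
  have hL : 0 < Real.log X := Real.log_pos hX
  have h1 := sum_log_le hR (bigp_sub (X ^ η) K v)
  have h2 : ∀ p ∈ bigp (X ^ η) K v, η * Real.log X ≤ Real.log p := by
    intro p hp
    have h3 := (mem_filter.1 hp).2.2
    rw [← Real.log_rpow (by linarith)]
    exact Real.log_le_log (Real.rpow_pos_of_pos (by linarith) _) h3.le
  have h4 : ((bigp (X ^ η) K v).card : ℝ) * (η * Real.log X) ≤ Real.log X := by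
    rw [← nsmul_eq_mul]
    exact (card_nsmul_le_sum _ _ _ h2).trans h1
  have h5 : ((bigp (X ^ η) K v).card : ℝ) ≤ 1 / η := by
    rw [le_div_iff₀ hη]
    nlinarith
  exact_mod_cast h5.trans (Nat.le_ceil _)

/-- exponents of big primes -/
theorem big_exp {X η h0 : ℝ} {K : Finset ℕ} {v : ℕ × ℕ} (hX : 1 < X) (hv : IsTri v)
    (hh2 : hh v ≤ 2 * h0) {s : Fin 3} {p : ℕ} (hps : p ∈ (coord v s).primeFactors)
    (hp : p ∈ bigp (X ^ η) K v) :
    ((nn v).factorization p : ℝ) * (η * Real.log X) ≤ 2 * h0 := by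
  classical
  have hL : 0 < Real.log X := Real.log_pos hX
  have h1 : η * Real.log X ≤ Real.log p := by
    have h3 := (mem_filter.1 hp).2.2
    rw [← Real.log_rpow (by linarith)]
    exact Real.log_le_log (Real.rpow_pos_of_pos (by linarith) _) h3.le
  have h2 := sum_fact_le (n := coord v s) {p}
  rw [sum_singleton] at h2
  rw [fact_nn hv hps]
  calc ((coord v s).factorization p : ℝ) * (η * Real.log X)
      ≤ ((coord v s).factorization p : ℝ) * Real.log p :=
        mul_le_mul_of_nonneg_left h1 (Nat.cast_nonneg _)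
    _ ≤ Real.log (coord v s) := h2
    _ ≤ hh v := log_coord_le hv s
    _ ≤ 2 * h0 := hh2

theorem close_real {e n y g d θ : ℝ} (hy : 0 < y) (h1 : |e / y - n| ≤ d) (hg1 : (1 - θ) * y ≤ g)
    (hg2 : g ≤ y) (hn : 0 ≤ n) (hθn : θ * n ≤ d) : |e - g * n| ≤ 2 * d * y := by
  have h2 : |e - y * n| ≤ d * y := by
    have : e - y * n = y * (e / y - n) := by
      field_simp
    rw [this, abs_mul, abs_of_pos hy]
    nlinarith
  have h3 : |(y - g) * n| ≤ d * y := by
    rw [abs_mul, abs_of_nonneg (by linarith), abs_of_nonneg hn]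
    nlinarith
  have h4 : e - g * n = (e - y * n) + (y - g) * n := by ring
  rw [h4]
  refine (abs_add_le _ _).trans ?_
  linarith

/-- data fixed in the core -/
structure Dat (X η κ d θ y g h0 : ℝ) (q : ℕ) : Prop where
  X1 : 1 < X
  η0 : 0 < η
  d0 : 0 < d
  d1 : d ≤ 1 / 2
  q1 : 1 ≤ q
  κ0 : 0 < κ
  hκ : κ * Real.log X = h0
  hy : y = κ / q
  θ0 : 0 ≤ θ
  hθ : θ * (2 * q / η + 1) ≤ d
  g1 : (1 - θ) * y ≤ g
  g2 : g ≤ y

theorem Dat.y0 {X η κ d θ y g h0 : ℝ} {q : ℕ} (D : Dat X η κ d θ y g h0 q) : 0 < y := by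
  rw [D.hy]
  have h1 : (0 : ℝ) < q := by exact_mod_cast D.q1
  exact div_pos D.κ0 h1

theorem mu_close {X η κ d θ y g h0 : ℝ} {q : ℕ} (D : Dat X η κ d θ y g h0 q) {K : Finset ℕ}
    {v : ℕ × ℕ} (hv : IsTri v) (hh2 : hh v ≤ 2 * h0) {s : Fin 3} {p : ℕ}
    (hps : p ∈ (coord v s).primeFactors) (hp : p ∈ bigp (X ^ η) K v)
    (hq : ∃ n : ℕ, |(q : ℝ) * (((nn v).factorization p : ℝ) / κ) - n| ≤ d) :
    |((coord v s).factorization p : ℝ) - g * mu (X ^ η) κ d q K v p| ≤ 2 * d * y := by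
  have hL : 0 < Real.log X := Real.log_pos D.X1
  have hq0 : (0 : ℝ) < q := by exact_mod_cast D.q1
  have hκ0 := D.κ0
  have hη0 := D.η0
  have h1 := mu_spec hp hq
  have h2 : (q : ℝ) * (((nn v).factorization p : ℝ) / κ) = ((nn v).factorization p : ℝ) / y := by
    rw [D.hy]
    field_simp
  rw [h2] at h1
  have h3 := big_exp (X := X) (η := η) D.X1 hv hh2 hps hp
  have h4 : ((nn v).factorization p : ℝ) ≤ 2 * κ / η := by
    rw [le_div_iff₀ hη0]
    have h5 : ((nn v).factorization p : ℝ) * η * Real.log X ≤ 2 * κ * Real.log X := by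
      have := D.hκ
      nlinarith
    exact le_of_mul_le_mul_right h5 hL
  have h6 : ((nn v).factorization p : ℝ) / y ≤ 2 * q / η := by
    rw [div_le_iff₀ D.y0, D.hy]
    refine h4.trans (le_of_eq ?_)
    field_simp
  have h7 : (mu (X ^ η) κ d q K v p : ℝ) ≤ 2 * q / η + 1 := by
    have := (abs_le.1 h1).1
    have := D.d1
    linarith
  have h8 : θ * (mu (X ^ η) κ d q K v p : ℝ) ≤ d :=
    (mul_le_mul_of_nonneg_left h7 D.θ0).trans D.hθ
  rw [← fact_nn hv hps]
  exact close_real D.y0 h1 D.g1 D.g2 (Nat.cast_nonneg _) h8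

theorem sum_log_coord {X : ℝ} {v : ℕ × ℕ} (hv : IsTri v)
    (hR : (RR v : ℝ) ≤ X) (s : Fin 3) : ∑ p ∈ (coord v s).primeFactors, Real.log p ≤ Real.log X :=
  sum_log_le hR (Nat.primeFactors_mono (nn_coord v s) (nn_pos hv).ne')

theorem rst_le {X η κ d θ y h0 : ℝ} {g q : ℕ} (D : Dat X η κ d θ y g h0 q) {K : Finset ℕ}
    {i s : Fin 3} {v : ℕ × ℕ} {lam : ℝ} (hv : IsTri v) (hR : (RR v : ℝ) ≤ X)
    (hh2 : hh v ≤ 2 * h0) (hsi : s ≠ i) (hlig : lig X η K i v ≤ lam * h0)
    (hq : ∀ p ∈ bigp (X ^ η) K v,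
      ∃ n : ℕ, |(q : ℝ) * (((nn v).factorization p : ℝ) / κ) - n| ≤ d) :
    rst g K (mu (X ^ η) κ d q K) s v ≤ 2 * d * h0 / q + lam * h0 := by
  classical
  have hd0 := D.d0
  have hy0 := D.y0
  have hq0 : (0 : ℝ) < q := by exact_mod_cast D.q1
  unfold rst
  have h1 : ∀ p ∈ (coord v s).primeFactors \ K,
      |((coord v s).factorization p : ℝ) - g * mu (X ^ η) κ d q K v p| * Real.log p ≤
        2 * d * y * Real.log p + (if (p : ℝ) ≤ X ^ η then
          ((coord v s).factorization p : ℝ) * Real.log p else 0) := by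
    intro p hp
    rw [mem_sdiff] at hp
    have hlog : 0 ≤ Real.log (p : ℝ) := Real.log_natCast_nonneg _
    have hpn : p ∈ (nn v).primeFactors :=
      Nat.primeFactors_mono (nn_coord v s) (nn_pos hv).ne' hp.1
    by_cases hZ : (p : ℝ) ≤ X ^ η
    · rw [if_pos hZ, mu_zero (fun h => absurd hZ (not_le.2 (mem_filter.1 h).2.2))]
      simp only [Nat.cast_zero, mul_zero, sub_zero]
      rw [abs_of_nonneg (Nat.cast_nonneg _)]
      have : 0 ≤ 2 * d * y * Real.log (p : ℝ) := by positivity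
      linarith
    · rw [if_neg hZ, add_zero]
      have hpb : p ∈ bigp (X ^ η) K v := mem_filter.2 ⟨hpn, hp.2, not_le.1 hZ⟩
      exact mul_le_mul_of_nonneg_right (mu_close D hv hh2 hp.1 hpb (hq p hpb)) hlog
  refine (sum_le_sum h1).trans ?_
  rw [sum_add_distrib, ← mul_sum]
  have h2 : ∑ p ∈ (coord v s).primeFactors \ K, Real.log (p : ℝ) ≤ Real.log X :=
    (sum_le_sum_of_subset_of_nonneg sdiff_subset fun p _ _ => Real.log_natCast_nonneg _).trans
      (sum_log_coord hv hR s)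
  have h3 : 2 * d * y * ∑ p ∈ (coord v s).primeFactors \ K, Real.log (p : ℝ) ≤ 2 * d * h0 / q := by
    refine (mul_le_mul_of_nonneg_left h2 (by positivity)).trans (le_of_eq ?_)
    rw [D.hy, ← D.hκ]
    field_simp
  have h4 : ∑ p ∈ (coord v s).primeFactors \ K, (if (p : ℝ) ≤ X ^ η then
      ((coord v s).factorization p : ℝ) * Real.log p else 0) ≤ lig X η K i v := by
    unfold lig
    refine le_trans (le_of_eq ?_) (single_le_sum (f := fun s => ∑ q ∈ (coord v s).primeFactors.filter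
      (fun q => q ∉ K ∧ (q : ℝ) ≤ X ^ η), ((coord v s).factorization q : ℝ) * Real.log q) ?_
      (mem_erase.2 ⟨hsi, mem_univ s⟩))
    · rw [← sum_filter]
      refine sum_congr ?_ fun _ _ => rfl
      ext p
      simp only [mem_filter, mem_sdiff]
      tauto
    · intro t _
      exact sum_nonneg fun p _ => mul_nonneg (Nat.cast_nonneg _) (Real.log_natCast_nonneg _)
  linarith

theorem rt_pos {μ : ℕ × ℕ → ℕ → ℕ} {s : Fin 3} {v : ℕ × ℕ} : 0 < rt μ s v := by
  unfold rt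
  exact prod_pos fun p hp => pow_pos (Nat.mem_primeFactors.1 hp).1.pos _

theorem log_rt {μ : ℕ × ℕ → ℕ → ℕ} {s : Fin 3} {v : ℕ × ℕ} :
    Real.log (rt μ s v) = ∑ p ∈ (coord v s).primeFactors, (μ v p : ℝ) * Real.log p := by
  unfold rt
  push_cast
  rw [Real.log_prod]
  · refine sum_congr rfl fun p _ => ?_
    rw [Real.log_pow]
  · intro p hp
    have := (Nat.mem_primeFactors.1 hp).1.pos
    positivity

theorem rt_le {X η κ d θ y h0 : ℝ} {g q : ℕ} (D : Dat X η κ d θ y g h0 q) {K : Finset ℕ}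
    {s : Fin 3} {v : ℕ × ℕ} (hg : 0 < g) (hv : IsTri v) (hR : (RR v : ℝ) ≤ X)
    (hh2 : hh v ≤ 2 * h0)
    (hq : ∀ p ∈ bigp (X ^ η) K v,
      ∃ n : ℕ, |(q : ℝ) * (((nn v).factorization p : ℝ) / κ) - n| ≤ d) :
    Real.log (rt (mu (X ^ η) κ d q K) s v) ≤ 3 * h0 / g := by
  classical
  have hd0 := D.d0
  have hd1 := D.d1
  have hy0 := D.y0
  have hL : 0 < Real.log X := Real.log_pos D.X1
  have hq1 : (1 : ℝ) ≤ q := by exact_mod_cast D.q1
  have hq0 : (0 : ℝ) < q := by linarith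
  have hg0 : (0 : ℝ) < g := by exact_mod_cast hg
  have hh0 : 0 < h0 := by
    rw [← D.hκ]
    exact mul_pos D.κ0 hL
  rw [le_div_iff₀ hg0, log_rt, sum_mul]
  have h1 : ∀ p ∈ (coord v s).primeFactors, (mu (X ^ η) κ d q K v p : ℝ) * Real.log p * g ≤
      ((coord v s).factorization p : ℝ) * Real.log p + 2 * d * y * Real.log p := by
    intro p hp
    have hlog : 0 ≤ Real.log (p : ℝ) := Real.log_natCast_nonneg _
    by_cases hpb : p ∈ bigp (X ^ η) K v
    · have h2 := mu_close D hv hh2 hp hpb (hq p hpb)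
      have h3 : (g : ℝ) * mu (X ^ η) κ d q K v p ≤
          ((coord v s).factorization p : ℝ) + 2 * d * y := by
        have := (abs_le.1 h2).1
        linarith
      have h4 := mul_le_mul_of_nonneg_right h3 hlog
      linarith
    · rw [mu_zero hpb]
      simp only [Nat.cast_zero, zero_mul]
      positivity
  refine (sum_le_sum h1).trans ?_
  rw [sum_add_distrib, ← mul_sum]
  have h5 := sum_fact_le (n := coord v s) (coord v s).primeFactors
  have h6 := log_coord_le hv s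
  have h7 := sum_log_coord hv hR s
  have h8 : 2 * d * y * ∑ p ∈ (coord v s).primeFactors, Real.log (p : ℝ) ≤ h0 := by
    refine (mul_le_mul_of_nonneg_left h7 (by positivity)).trans ?_
    have e : 2 * d * y * Real.log X = 2 * d / q * h0 := by
      rw [D.hy, ← D.hκ]
      field_simp
    rw [e]
    have h9 : 2 * d / q ≤ 1 := by
      rw [div_le_iff₀ hq0]
      linarith
    nlinarith
  linarith

end Tsx25

end Pool.VIO
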